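import Pool.Agent.Lib.H59M.M1.M111

/-!
# Polynomial families of tuples: power-saving exceptional sets

The tuple `R_1(t), …, R_k(t)`, the `R_i` integral polynomials of degree at most `D` in `t = (t_1, …, t_d)`, `0 ≤ t_j ≤ T^(1/D)`, with fixed
different homogeneous parts `H_i` of degree `D` (for example `0, t^2, 2 t^2, …, (k - 1) t^2`) and arbitrary lower terms. For all but
`T^(d/D - η)` of the `t` either the tuple is not admissible, or at least `T^(1-ε)` integers `n ≤ T` make all the `n + R_i(t)` prime.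
-/

open Finset

namespace Pool.Agent.Results.MP_f686a1_nt.PolynomialFamilies

/-- A finite set of non-negative integers is admissible if for every prime `p` some residue class
modulo `p` contains none of its elements. -/
def Admissible (A : Finset ℕ) : Prop :=
  ∀ p : ℕ, p.Prime → ∃ r : ZMod p, ∀ a ∈ A, (a : ZMod p) ≠ r

/-- The number of the positive integers `n ≤ T` for which all `n + a`, `a ∈ A`, are prime. -/
noncomputable def primeTranslates (T : ℕ) (A : Finset ℕ) : ℕ :=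
  {n : ℕ | 1 ≤ n ∧ n ≤ T ∧ ∀ a ∈ A, (n + a).Prime}.ncard

/-- `R` is `H` plus monomials of degrees `e < D` with coefficients of absolute value at most `C T^(1 - e/D)`. -/
def LowerTerms {d : ℕ} (D C T : ℕ) (H R : MvPolynomial (Fin d) ℤ) : Prop :=
  ∀ m : Fin d →₀ ℕ, (R - H).coeff m ≠ 0 → ∑ j, m j < D ∧
    ((|(R - H).coeff m| : ℤ) : ℝ) ≤ C * (T : ℝ) ^ (1 - ((∑ j, m j : ℕ) : ℝ) / D)

/-- The shift `R_i(t)`. -/
noncomputable def shift {k d : ℕ} (R : Fin k → MvPolynomial (Fin d) ℤ) (t : Fin d → ℕ) (i : Fin k) : ℤ :=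
  MvPolynomial.eval (fun j => (t j : ℤ)) (R i)

/-- The set of the shifts (used when they are all non-negative). -/
noncomputable def shifts {k d : ℕ} (R : Fin k → MvPolynomial (Fin d) ℤ) (t : Fin d → ℕ) : Finset ℕ :=
  univ.image fun i => (shift R t i).toNat

/-- The `t` with `0 ≤ t_j ≤ T^(1/D)` and non-negative shifts, admissible, with fewer than `T^(1-ε)` prime translates up to `T`. -/
def exceptional {k d : ℕ} (D : ℕ) (R : Fin k → MvPolynomial (Fin d) ℤ) (T : ℕ) (ε : ℝ) : Set (Fin d → ℕ) :=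
  {t | (∀ j, t j ^ D ≤ T) ∧ (∀ i, 0 ≤ shift R t i) ∧ Admissible (shifts R t) ∧
    (primeTranslates T (shifts R t) : ℝ) < (T : ℝ) ^ (1 - ε)}

/-- The integral part of the `D`-th root. -/
private theorem root (D : ℕ) (hD : 1 ≤ D) (T : ℕ) (hT : 1 ≤ T) :
    ∃ U : ℕ, 1 ≤ U ∧ U ^ D ≤ T ∧ (∀ t : ℕ, t ^ D ≤ T → t ≤ U) ∧ T ≤ 2 ^ D * U ^ D := by
  have hle : ∀ t : ℕ, t ^ D ≤ T → t ≤ T := fun t ht => le_trans (Nat.le_self_pow (by omega) t) ht
  obtain ⟨U, hU, hmax⟩ : ∃ U : ℕ, U ^ D ≤ T ∧ ∀ t : ℕ, t ^ D ≤ T → t ≤ U := by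
    refine ⟨Nat.findGreatest (fun t => t ^ D ≤ T) T, ?_, fun t ht => Nat.le_findGreatest (hle t ht) ht⟩
    have := Nat.findGreatest_spec (P := fun t => t ^ D ≤ T) (m := 1) (n := T) hT (by simpa using hT)
    exact this
  have h1 : 1 ≤ U := hmax 1 (by simpa using hT)
  refine ⟨U, h1, hU, hmax, ?_⟩
  have h2 : T < (U + 1) ^ D := by
    by_contra h
    have := hmax (U + 1) (by omega)
    omega
  calc T ≤ (U + 1) ^ D := h2.le
    _ ≤ (2 * U) ^ D := Nat.pow_le_pow_left (by omega) D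
    _ = 2 ^ D * U ^ D := mul_pow _ _ _

/-- **The main theorem.** -/
theorem result {k d D : ℕ} (hd : 1 ≤ d) (hD : 1 ≤ D) (H : Fin k → MvPolynomial (Fin d) ℤ)
    (hH : ∀ i, (H i).IsHomogeneous D) (hinj : Function.Injective H) (C : ℕ) (ε : ℝ) (hε : 0 < ε) :
    ∃ η : ℝ, 0 < η ∧ ∃ T₀ : ℕ, ∀ T : ℕ, T₀ ≤ T → ∀ R : Fin k → MvPolynomial (Fin d) ℤ,
      (∀ i, LowerTerms D C T (H i) (R i)) → ((exceptional D R T ε).ncard : ℝ) ≤ (T : ℝ) ^ ((d : ℝ) / D - η) := by
  classical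
  obtain ⟨η, hη, T₀, h⟩ := Pool.Agent.HPG.FIN_multi hd D hD H hH hinj (2 ^ D * (C + 1)) ε hε
  refine ⟨η, hη, T₀ + 1, fun T hT R hR => ?_⟩
  have hT1 : 1 ≤ T := by omega
  have hTp : (0 : ℝ) < T := by exact_mod_cast hT1
  have hDp : (0 : ℝ) < D := by exact_mod_cast hD
  obtain ⟨U, hU1, hU, hmax, hTU⟩ := root D hD T hT1
  have hUr : (U : ℝ) ≤ (T : ℝ) ^ (1 / (D : ℝ)) := by
    have : ((U : ℝ) ^ D) ^ (1 / (D : ℝ)) ≤ (T : ℝ) ^ (1 / (D : ℝ)) :=
      Real.rpow_le_rpow (by positivity) (by exact_mod_cast hU) (by positivity)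
    rw [one_div, Real.pow_rpow_inv_natCast (by positivity) (by omega)] at this
    rwa [one_div]
  have hTr : (T : ℝ) ^ (1 / (D : ℝ)) ≤ 2 * U := by
    have : (T : ℝ) ^ (1 / (D : ℝ)) ≤ ((2 * (U : ℝ)) ^ D) ^ (1 / (D : ℝ)) := by
      refine Real.rpow_le_rpow (by positivity) ?_ (by positivity)
      rw [mul_pow]
      exact_mod_cast hTU
    rwa [one_div, Real.pow_rpow_inv_natCast (by positivity) (by omega), ← one_div] at this
  have hP : ∀ i, Pool.Agent.HPG.Pert D (2 ^ D * (C + 1)) U (H i) (R i) := by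
    intro i m hm
    obtain ⟨h1, h2⟩ := hR i m hm
    refine ⟨h1, ?_⟩
    have h3 : (T : ℝ) ^ (1 - ((∑ j, m j : ℕ) : ℝ) / D) = ((T : ℝ) ^ (1 / (D : ℝ))) ^ (D - ∑ j, m j) := by
      rw [← Real.rpow_natCast, ← Real.rpow_mul hTp.le, Nat.cast_sub h1.le]
      congr 1
      field_simp
    have h4 : ((T : ℝ) ^ (1 / (D : ℝ))) ^ (D - ∑ j, m j) ≤ 2 ^ D * (U : ℝ) ^ (D - ∑ j, m j) := by
      calc ((T : ℝ) ^ (1 / (D : ℝ))) ^ (D - ∑ j, m j) ≤ (2 * (U : ℝ)) ^ (D - ∑ j, m j) :=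
            pow_le_pow_left₀ (by positivity) hTr _
        _ = 2 ^ (D - ∑ j, m j) * (U : ℝ) ^ (D - ∑ j, m j) := mul_pow _ _ _
        _ ≤ 2 ^ D * (U : ℝ) ^ (D - ∑ j, m j) := by
            refine mul_le_mul_of_nonneg_right ?_ (by positivity)
            exact pow_le_pow_right₀ (by norm_num) (Nat.sub_le _ _)
    have h5 : ((|(R i - H i).coeff m| : ℤ) : ℝ) ≤ (2 ^ D * (C + 1) : ℝ) * (U : ℝ) ^ (D - ∑ j, m j) := by
      rw [h3] at h2
      refine h2.trans ?_
      calc (C : ℝ) * ((T : ℝ) ^ (1 / (D : ℝ))) ^ (D - ∑ j, m j)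
          ≤ (C : ℝ) * (2 ^ D * (U : ℝ) ^ (D - ∑ j, m j)) := mul_le_mul_of_nonneg_left h4 (by positivity)
        _ ≤ (2 ^ D * (C + 1) : ℝ) * (U : ℝ) ^ (D - ∑ j, m j) := by
            have : (0 : ℝ) ≤ 2 ^ D * (U : ℝ) ^ (D - ∑ j, m j) := by positivity
            nlinarith
    exact_mod_cast h5
  have key := h T U (by omega) hU (le_trans hTU ?_) R hP
  · have hUT : (U : ℝ) ^ d ≤ (T : ℝ) ^ ((d : ℝ) / D) := by
      calc (U : ℝ) ^ d ≤ ((T : ℝ) ^ (1 / (D : ℝ))) ^ d := pow_le_pow_left₀ (by positivity) hUr d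
        _ = (T : ℝ) ^ ((d : ℝ) / D) := by
            rw [← Real.rpow_natCast, ← Real.rpow_mul hTp.le]
            congr 1
            ring
    have h6 : (U : ℝ) ^ d * (T : ℝ) ^ (-η) ≤ (T : ℝ) ^ ((d : ℝ) / D - η) := by
      rw [sub_eq_add_neg, Real.rpow_add hTp]
      exact mul_le_mul_of_nonneg_right hUT (by positivity)
    refine le_trans (Nat.cast_le.2 ?_) (key.trans h6)
    rw [← Set.ncard_coe_finset]
    refine Set.ncard_le_ncard ?_ (Finset.finite_toSet _)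
    rintro t ⟨h1, h2, h3, h4⟩
    refine mem_coe.2 (mem_filter.2 ⟨?_, h2, ?_, ?_⟩)
    · rw [Fintype.mem_piFinset]
      intro j
      rw [mem_range]
      have := hmax _ (h1 j)
      omega
    · intro l hl
      obtain ⟨r, hr⟩ := h3 l hl
      have : NeZero l := ⟨hl.ne_zero⟩
      refine ⟨-(r.val : ℤ), fun i hi => ?_⟩
      have h5 := hr _ (mem_image_of_mem (fun i => (shift R t i).toNat) (mem_univ i))
      apply h5
      have h6 : -(r.val : ℤ) + MvPolynomial.eval (fun j => (t j : ℤ)) (R i) = shift R t i - r.val := by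
        show -(r.val : ℤ) + shift R t i = shift R t i - r.val
        ring
      rw [h6, ← ZMod.intCast_zmod_eq_zero_iff_dvd] at hi
      have h7 : ((shift R t i).toNat : ℤ) = shift R t i := Int.toNat_of_nonneg (h2 i)
      have h8 : (((shift R t i).toNat : ℤ) : ZMod l) = ((shift R t i : ℤ) : ZMod l) := by rw [h7]
      rw [Int.cast_natCast] at h8
      show (((shift R t i).toNat : ℕ) : ZMod l) = r
      rw [h8]
      push_cast at hi
      rw [ZMod.natCast_zmod_val] at hi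
      exact sub_eq_zero.1 hi
    · refine lt_of_le_of_lt (Nat.cast_le.2 ?_) h4
      unfold primeTranslates
      rw [← Set.ncard_coe_finset]
      refine Set.ncard_le_ncard ?_ (Set.Finite.subset (Finset.finite_toSet (Icc 1 T)) ?_)
      · intro n hn
        rw [mem_coe, mem_filter, mem_Icc] at hn
        refine ⟨hn.1.1, hn.1.2, fun a ha => ?_⟩
        obtain ⟨i, -, rfl⟩ := mem_image.1 ha
        have h9 := hn.2 i
        have h10 : ((n : ℤ) + MvPolynomial.eval (fun j => (t j : ℤ)) (R i)).toNat = n + (shift R t i).toNat := by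
          have h11 : 0 ≤ shift R t i := h2 i
          show ((n : ℤ) + shift R t i).toNat = n + (shift R t i).toNat
          omega
        rw [h10] at h9
        exact h9
      · rintro n ⟨h5, h6, -⟩
        exact mem_coe.2 (mem_Icc.2 ⟨h5, h6⟩)
  · have : U ^ D ≤ (C + 1) * U ^ D := Nat.le_mul_of_pos_left _ (by omega)
    calc 2 ^ D * U ^ D ≤ 2 ^ D * ((C + 1) * U ^ D) := Nat.mul_le_mul_left _ this
      _ = 2 ^ D * (C + 1) * U ^ D := by ring

end Pool.Agent.Results.MP_f686a1_nt.PolynomialFamilies
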