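import Pool.Agent.Lib.H59M.M1.M097
import Pool.Agent.Lib.H59M.M1.M103

/-!
Q1 for almost all admissible sets and ALL large `x`, with power-saving exceptional sets. Unconditionally the uniform prime
`k`-tuples statement holds, for all large `x` and all `k ≤ (log x)^(1/2-δ)`, for all admissible `k`-sets in `[0, x^(1-δ)]`
but a proportion `x^(-c/(k log (k+1)))`. For every `0 < κ ≤ 1` the almost-all form of Q1 for all large `x` and all
`k ≤ (log x)^(κ-δ)` is equivalent to a zero-free interval of the L-functions of real characters.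
-/

open Finset

namespace Pool.Agent.Results.MP_f686a1_nt.PowerTuples

/-- A finite set of non-negative integers is admissible if for every prime `p` some residue class
modulo `p` contains none of its elements. -/
def Admissible (A : Finset ℕ) : Prop :=
  ∀ p : ℕ, p.Prime → ∃ r : ZMod p, ∀ a ∈ A, (a : ZMod p) ≠ r

/-- Some positive integer `n ≤ x` makes all `n + a`, `a ∈ A`, prime. -/
def HasPrimeTranslate (x : ℝ) (A : Finset ℕ) : Prop :=
  ∃ n : ℕ, 1 ≤ n ∧ (n : ℝ) ≤ x ∧ ∀ a ∈ A, (n + a).Prime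

/-- The admissible sets with `k` elements, all at most `x ^ (1 - δ)`. -/
def admissibleSets (x δ : ℝ) (k : ℕ) : Set (Finset ℕ) :=
  {A | A.card = k ∧ Admissible A ∧ ∀ a ∈ A, (a : ℝ) ≤ x ^ (1 - δ)}

/-- There are admissible `k`-sets in `[0, x^(1-δ)]`, and all but at most a proportion `ξ` of them have a prime
translate. -/
def AllBut (ξ x δ : ℝ) (k : ℕ) : Prop :=
  0 < (admissibleSets x δ k).ncard ∧
    (({A ∈ admissibleSets x δ k | ¬ HasPrimeTranslate x A}.ncard : ℕ) : ℝ) ≤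
      ξ * ((admissibleSets x δ k).ncard : ℝ)

/-- The statement Q1 of the problem. -/
def UniformTuples : Prop :=
  ∀ δ : ℝ, 0 < δ → ∃ x₀ : ℝ, ∀ x : ℝ, x₀ ≤ x → ∀ A : Finset ℕ, Admissible A →
    (A.card : ℝ) ≤ (Real.log x) ^ (1 - δ) → (∀ a ∈ A, (a : ℝ) ≤ x ^ (1 - δ)) →
    HasPrimeTranslate x A

/-- (a) Q1 for all but a proportion `exp (-(log x)^(κ-δ/2))` of the admissible `k`-sets, for every
`k ≤ (log x)^(κ-δ)`. -/
def AlmostAllTuples (κ : ℝ) : Prop :=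
  ∀ δ : ℝ, 0 < δ → δ < κ → ∃ x₀ : ℝ, ∀ x : ℝ, x₀ ≤ x → ∀ k : ℕ, 1 ≤ k →
    (k : ℝ) ≤ (Real.log x) ^ (κ - δ) → AllBut (Real.exp (-(Real.log x) ^ (κ - δ / 2))) x δ k

/-- (b) At least a proportion `exp (-k/16)` of the admissible `k`-sets has a prime translate, for every
`k₀ ≤ k ≤ (log x)^(κ-δ)`, `k₀` depending on `δ`. -/
def SomeTuples (κ : ℝ) : Prop :=
  ∀ δ : ℝ, 0 < δ → δ < κ → ∃ (k₀ : ℕ) (x₀ : ℝ), ∀ x : ℝ, x₀ ≤ x → ∀ k : ℕ, 1 ≤ k → k₀ ≤ k →
    (k : ℝ) ≤ (Real.log x) ^ (κ - δ) →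
    Real.exp (-(k / 16)) * ((admissibleSets x δ k).ncard : ℝ) ≤
      (({A ∈ admissibleSets x δ k | HasPrimeTranslate x A}.ncard : ℕ) : ℝ)

/-- (c) For every `ε > 0` and all large `r`, no real primitive non-trivial character `ψ` modulo `r` has
a real zero of `L(s, ψ)` in `[1 - exp (-(log r)^(1/κ-1+ε)), 1]`. -/
def NoExceptionalZeros (κ : ℝ) : Prop :=
  ∀ ε : ℝ, 0 < ε → ∃ r₀ : ℕ, ∀ r : ℕ, r₀ ≤ r → ∀ [NeZero r], ∀ ψ : DirichletCharacter ℂ r,
    ψ.IsPrimitive → ψ ≠ 1 → ψ ^ 2 = 1 → ∀ σ : ℝ,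
    1 - Real.exp (-(Real.log r) ^ (1 / κ - 1 + ε)) ≤ σ → σ ≤ 1 → ψ.LFunction (σ : ℂ) ≠ 0

theorem adm_finite (x δ : ℝ) (k : ℕ) (hx : 0 ≤ x) : (admissibleSets x δ k).Finite := by
  classical
  show (Pool.Agent.Lib.H68T.XSET_adm x δ k).Finite
  rw [Pool.Agent.Lib.H68T.XSET_conv x δ k hx]
  exact Finset.finite_toSet _

theorem split_card (S : Set (Finset ℕ)) (hS : S.Finite) (P : Finset ℕ → Prop) :
    {A ∈ S | P A}.ncard + {A ∈ S | ¬ P A}.ncard = S.ncard := by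
  have hd : Disjoint {A ∈ S | P A} {A ∈ S | ¬ P A} := by
    rw [Set.disjoint_left]
    rintro A ⟨-, h2⟩ ⟨-, h3⟩
    exact h3 h2
  rw [← Set.ncard_union_eq hd (hS.subset (Set.sep_subset _ _))
    (hS.subset (Set.sep_subset _ _))]
  congr 1
  ext A
  rw [Set.mem_union, Set.mem_sep_iff, Set.mem_sep_iff]
  tauto

theorem some_to (κ : ℝ) (h : SomeTuples κ) : Pool.Agent.Lib.H59P.SomeHaveT κ := by
  classical
  intro δ hδ hδ1
  obtain ⟨k₀, x₀, hx₀⟩ := h δ hδ hδ1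
  refine ⟨k₀, max x₀ 0, fun x hx k hk1 hk0 hk => ?_⟩
  have h0 : 0 ≤ x := (le_max_right _ _).trans hx
  have h1 := hx₀ x ((le_max_left _ _).trans hx) k hk1 hk0 hk
  have e1 : (admissibleSets x δ k).ncard = (Pool.Agent.Lib.H68T.XSET_adm x δ k).ncard := rfl
  have e2 : {A ∈ admissibleSets x δ k | HasPrimeTranslate x A} =
      ↑(((range (⌊x ^ (1 - δ)⌋₊ + 1)).powersetCard k).filter (fun A =>
        Pool.Agent.Lib.H68T.Admissible A ∧ Pool.Agent.Lib.H68T.HasPrimeTranslate x A)) := by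
    ext A
    have h2 : A ∈ admissibleSets x δ k ↔ A ∈ ((range (⌊x ^ (1 - δ)⌋₊ + 1)).powersetCard k).filter
        (fun A => Pool.Agent.Lib.H68T.Admissible A) := by
      have h3 := Pool.Agent.Lib.H68T.XSET_conv x δ k h0
      show A ∈ Pool.Agent.Lib.H68T.XSET_adm x δ k ↔ _
      rw [h3, Finset.mem_coe]
    rw [Set.mem_sep_iff, h2, Finset.mem_coe, mem_filter, mem_filter]
    have h4 : HasPrimeTranslate x A ↔ Pool.Agent.Lib.H68T.HasPrimeTranslate x A := Iff.rfl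
    rw [h4]
    tauto
  rw [e1, Pool.Agent.Lib.H68T.XSET_card x δ k h0, e2, Set.ncard_coe_finset] at h1
  exact h1

theorem almost_to_some (κ : ℝ) (h : AlmostAllTuples κ) : SomeTuples κ := by
  intro δ hδ hδ1
  obtain ⟨x₀, hx₀⟩ := h δ hδ hδ1
  obtain ⟨L₁, hL₁⟩ := Filter.eventually_atTop.mp
    (Pool.Agent.Lib.H68T.ev_rpow 4 0 (κ - δ / 2) (by linarith))
  refine ⟨0, max x₀ (Real.exp (max L₁ 1)), fun x hx k hk1 _ hk => ?_⟩
  obtain ⟨-, hx1⟩ := hx₀ x ((le_max_left _ _).trans hx) k hk1 hk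
  have hxe : Real.exp (max L₁ 1) ≤ x := (le_max_right _ _).trans hx
  have hx0 : 0 < x := lt_of_lt_of_le (Real.exp_pos _) hxe
  have hLge : max L₁ 1 ≤ Real.log x := by
    rw [Real.le_log_iff_exp_le hx0]; exact hxe
  have e1 := hL₁ _ ((le_max_left _ _).trans hLge)
  rw [Real.rpow_zero, mul_one] at e1
  have hfin := adm_finite x δ k hx0.le
  have e2 := split_card (admissibleSets x δ k) hfin (HasPrimeTranslate x)
  have e2' : (({A ∈ admissibleSets x δ k | HasPrimeTranslate x A}.ncard : ℕ) : ℝ) +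
      (({A ∈ admissibleSets x δ k | ¬ HasPrimeTranslate x A}.ncard : ℕ) : ℝ) =
      ((admissibleSets x δ k).ncard : ℝ) := by exact_mod_cast e2
  set N : ℝ := ((admissibleSets x δ k).ncard : ℝ) with hN
  have hN0 : 0 ≤ N := Nat.cast_nonneg _
  have h6 : Real.exp (-(Real.log x) ^ (κ - δ / 2)) ≤ 1 / 50 := by
    have h7 : Real.exp (-(Real.log x) ^ (κ - δ / 2)) ≤ Real.exp (-4) :=
      Real.exp_le_exp.mpr (by linarith)
    refine h7.trans ?_
    have h8 : (50 : ℝ) ≤ Real.exp 4 := by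
      have h9 : Real.exp 4 = Real.exp 1 ^ 4 := by
        rw [← Real.exp_nat_mul]; norm_num
      rw [h9]
      have h10 : (2.7 : ℝ) ≤ Real.exp 1 := by linarith [Real.exp_one_gt_d9]
      calc (50 : ℝ) ≤ 2.7 ^ 4 := by norm_num
        _ ≤ Real.exp 1 ^ 4 := pow_le_pow_left₀ (by norm_num) h10 4
    rw [Real.exp_neg, ← one_div]
    exact one_div_le_one_div_of_le (by norm_num) h8
  have h11 : Real.exp (-((k : ℝ) / 16)) ≤ 49 / 50 := by
    have hk1' : (1 : ℝ) ≤ k := by exact_mod_cast hk1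
    have h12 : Real.exp (-((k : ℝ) / 16)) ≤ Real.exp (-(1 / 16)) :=
      Real.exp_le_exp.mpr (by linarith)
    refine h12.trans ?_
    have h13 : (50 : ℝ) / 49 ≤ Real.exp (1 / 16) := by
      have h14 := Real.add_one_le_exp (1 / 16 : ℝ)
      linarith
    rw [Real.exp_neg, ← one_div]
    calc 1 / Real.exp (1 / 16) ≤ 1 / (50 / 49) := one_div_le_one_div_of_le (by norm_num) h13
      _ = 49 / 50 := by norm_num
  have h15 := mul_le_mul_of_nonneg_right h6 hN0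
  have h16 := mul_le_mul_of_nonneg_right h11 hN0
  linarith

theorem q1_to_some (h : UniformTuples) : SomeTuples 1 := by
  intro δ hδ _
  obtain ⟨x₀, hx₀⟩ := h δ hδ
  refine ⟨0, x₀, fun x hx k _ _ hk => ?_⟩
  have h1 : {A ∈ admissibleSets x δ k | HasPrimeTranslate x A} = admissibleSets x δ k := by
    ext A
    rw [Set.mem_sep_iff]
    exact ⟨fun h => h.1, fun hA => ⟨hA, hx₀ x hx A hA.2.1 (by rw [hA.1]; exact hk) hA.2.2⟩⟩
  rw [h1]
  have h2 : Real.exp (-((k : ℝ) / 16)) ≤ 1 := by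
    rw [Real.exp_le_one_iff]
    have : (0 : ℝ) ≤ k := Nat.cast_nonneg _
    linarith
  exact (mul_le_mul_of_nonneg_right h2 (Nat.cast_nonneg _)).trans (le_of_eq (one_mul _))

/-- **Main theorem.** -/
theorem result :
    -- (d) all large `x`, `k ≤ (log x)^(1/2-δ)`
    (∀ δ : ℝ, 0 < δ → δ < 1 / 2 → ∃ c x₀ : ℝ, 0 < c ∧ ∀ x : ℝ, x₀ ≤ x → ∀ k : ℕ, 1 ≤ k →
      (k : ℝ) ≤ (Real.log x) ^ (1 / 2 - δ) → AllBut (x ^ (-(c / (k * Real.log (k + 1))))) x δ k) ∧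
    -- (a), (b) and (c) are equivalent
    (∀ κ : ℝ, 0 < κ → κ ≤ 1 →
      (AlmostAllTuples κ ↔ NoExceptionalZeros κ) ∧ (SomeTuples κ ↔ NoExceptionalZeros κ)) ∧
    (UniformTuples → NoExceptionalZeros 1) := by
  have hb : ∀ κ : ℝ, 0 < κ → κ ≤ 1 → SomeTuples κ → NoExceptionalZeros κ := by
    intro κ hκ hκ1 h
    exact Pool.Agent.Lib.H59P.barrierT κ hκ hκ1 (some_to κ h)
  have hf : ∀ κ : ℝ, 0 < κ → κ ≤ 1 → NoExceptionalZeros κ → AlmostAllTuples κ :=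
    fun κ hκ hκ1 h δ hδ hδ1 => Pool.Agent.Lib.H59P.END_a κ hκ hκ1 h δ hδ hδ1
  exact ⟨fun δ hδ hδ1 => Pool.Agent.Lib.H59P.END_d δ hδ hδ1,
    fun κ hκ hκ1 => ⟨⟨fun h => hb κ hκ hκ1 (almost_to_some κ h), hf κ hκ hκ1⟩,
      ⟨hb κ hκ hκ1, fun h => almost_to_some κ (hf κ hκ hκ1 h)⟩⟩,
    fun h => hb 1 one_pos le_rfl (q1_to_some h)⟩

end Pool.Agent.Results.MP_f686a1_nt.PowerTuples
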