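import Mathlib
import Pool.Agent.Lib.H59D.F6

/-!
Uniform prime `k`-tuples: for all large `x` and all admissible sets `A` of `k` elements in the range of
the question, many `n ≤ x` make `c log k` of the numbers `n + a` primes and all of them products of at
most `C log k` primes.
-/

open Finset

namespace Pool.Agent.Results.MP_f686a1_nt.PrimesAndAlmostPrimes

/-- A finite set of non-negative integers is admissible if for every prime `p` some residue class
modulo `p` contains none of its elements. -/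
def Admissible (A : Finset ℕ) : Prop :=
  ∀ p : ℕ, p.Prime → ∃ r : ZMod p, ∀ a ∈ A, (a : ZMod p) ≠ r

/-- For every `ε > 0` there are `c, C > 0` such that for all real `x ≥ C` and all nonempty admissible
sets `A` of `k` integers in `[0, c x]` with `C k (1 + log k) log log x ≤ log x`, there are at least
`x^(1-ε)` integers `1 ≤ n ≤ x` for which at least `c (1 + log k)` of the numbers `n + a` (`a ∈ A`) are
primes, every `n + a` has at most `C (1 + log k)` prime factors (counted with multiplicity), and its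
prime factors larger than `(log x)^17` are larger than `x^(c/k³)` and occur only once. -/
theorem result (ε : ℝ) (hε : 0 < ε) : ∃ c C : ℝ, 0 < c ∧ 0 < C ∧ ∀ x : ℝ, C ≤ x →
    ∀ A : Finset ℕ, A.Nonempty → Admissible A → (∀ a ∈ A, (a : ℝ) ≤ c * x) →
      C * (A.card * (1 + Real.log A.card) * Real.log (Real.log x)) ≤ Real.log x →
      ∃ S : Finset ℕ, x ^ (1 - ε) ≤ (S.card : ℝ) ∧ ∀ n ∈ S, 1 ≤ n ∧ (n : ℝ) ≤ x ∧
        c * (1 + Real.log A.card) ≤ ((A.filter (fun a => Nat.Prime (n + a))).card : ℝ) ∧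
        ∀ a ∈ A, (ArithmeticFunction.cardFactors (n + a) : ℝ) ≤ C * (1 + Real.log A.card) ∧
          ∀ p : ℕ, p.Prime → p ∣ n + a → (Real.log x) ^ 17 < p →
            x ^ (c / (A.card : ℝ) ^ 3) < p ∧ ¬ p ^ 2 ∣ n + a := by
  classical
  obtain ⟨c, C, hc, hC, h⟩ := Pool.Agent.Lib.H59D.final ε hε
  refine ⟨c, C, hc, hC, fun x hx A hne hadm hAx hreg => ?_⟩
  have hx0 : 0 ≤ x := hC.le.trans hx
  refine ⟨_, h x hx A hne hadm hAx hreg, fun n hn => ?_⟩
  rw [mem_filter, mem_Icc] at hn
  obtain ⟨⟨hn1, hn2⟩, hn3, hn4⟩ := hn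
  exact ⟨hn1, (Nat.le_floor_iff hx0).mp hn2, hn3, hn4⟩

end Pool.Agent.Results.MP_f686a1_nt.PrimesAndAlmostPrimes
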