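import Pool.Agent.Lib.H16U.F7

/-!
# MP_f686a1_nt: one-parameter families of prime tuples, uniformly in the number of forms
-/

namespace Pool.Agent.Results.MP_f686a1_nt.UniformFamilies

/-- The integers `a 0, …, a (k - 1)` leave a residue class modulo every prime free. -/
def Admissible {k : ℕ} (a : Fin k → ℤ) : Prop := ∀ p : ℕ, p.Prime → ∃ z : ZMod p, ∀ i, (a i : ZMod p) ≠ z

/-- The integers `1 ≤ n ≤ x` for which all `n + a i` are primes. -/
def primeTranslates (x : ℕ) {k : ℕ} (a : Fin k → ℤ) : Set ℤ := {n | 1 ≤ n ∧ n ≤ x ∧ ∀ i, (n + a i).toNat.Prime}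

/-- The exceptional `t` for the family `b i + c i * t`: all members are non-negative, they are admissible, and there are
few prime translates. -/
def exceptional (x : ℕ) {k : ℕ} (b c : Fin k → ℤ) : Set ℤ :=
  {t | 0 ≤ t ∧ t ≤ x ∧ (∀ i, 0 ≤ b i + c i * t) ∧ Admissible (fun i => b i + c i * t) ∧
    ((primeTranslates x fun i => b i + c i * t).ncard : ℝ) < x * Real.exp (-((Real.log x) ^ (1 / 4 : ℝ)))}

/-- **Theorem.** (1) One-parameter families of `k ≤ κ log log log x` forms: with at most `x exp (-(log x)^(1/7))`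
exceptions `t ≤ x`, all admissible members have at least `x exp (-(log x)^(1/4))` prime translates `n ≤ x`. (2) There
are `k` primes in arithmetic progression below `exp (exp (exp (C k)))`. -/
theorem result :
    (∃ κ : ℝ, 0 < κ ∧ ∃ x₀ : ℕ, ∀ x : ℕ, x₀ ≤ x → ∀ k : ℕ, 1 ≤ k → (k : ℝ) ≤ κ * Real.log (Real.log (Real.log x)) →
      ∀ b c : Fin k → ℤ, Function.Injective c → (∀ i, |(c i : ℝ)| ≤ Real.exp ((Real.log x) ^ (1 / 50 : ℝ))) →
      (∀ i, |(b i : ℝ)| ≤ x * Real.exp ((Real.log x) ^ (1 / 50 : ℝ))) →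
      ((exceptional x b c).ncard : ℝ) ≤ x * Real.exp (-((Real.log x) ^ (1 / 7 : ℝ)))) ∧
    (∃ C : ℝ, ∀ k : ℕ, 1 ≤ k → ∃ a d : ℕ, 0 < d ∧ (∀ i < k, (a + i * d).Prime) ∧
      ((a + (k - 1) * d : ℕ) : ℝ) ≤ Real.exp (Real.exp (Real.exp (C * k)))) := by
  obtain ⟨κ, hκ, x0, h⟩ := Pool.Agent.H16U.F7_main
  refine ⟨⟨κ, hκ, x0, ?_⟩, Pool.Agent.H16U.F6_AP κ hκ x0 h⟩
  intro x hx k hk hkx b c hinj hc hb
  have hF : Pool.Agent.H16U.FAM x k b c := ⟨hinj, hc, hb⟩
  have hU := h x hx k hk hkx b c hF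
  refine le_trans (le_of_eq ?_) hU
  norm_cast
  classical
  rw [← Set.ncard_coe_finset]
  congr 1
  ext t
  simp only [exceptional, Set.mem_setOf_eq, Finset.coe_filter, Finset.mem_Icc]
  have hN : ∀ a : Fin k → ℤ, (primeTranslates x a).ncard = Pool.Agent.H16U.NP x a := by
    intro a
    unfold Pool.Agent.H16U.NP primeTranslates
    rw [← Set.ncard_coe_finset]
    congr 1
    ext n
    simp only [Set.mem_setOf_eq, Finset.coe_filter, Finset.mem_Icc, and_assoc]
  rw [hN]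
  simp only [and_assoc]
  rfl

end Pool.Agent.Results.MP_f686a1_nt.UniformFamilies
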